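import Pool.Agent.helper37.CZ.Spec

/-!
# Row RWB: weighted row sums
-/

set_option autoImplicit false

namespace Pool.Agent.CZ

theorem RWB_summable (ρ : ℝ) (h0 : 0 < ρ) (h1 : ρ < 1) : Summable fun n : ℤ => ρ ^ n.natAbs := by
  have h2 := summable_geometric_of_lt_one h0.le h1
  refine Summable.of_nat_of_neg ?_ ?_
  · simpa using h2
  · simpa using h2

theorem RWB_sum (ρ : ℝ) (h0 : 0 < ρ) (h1 : ρ < 1) (p : ℤ) (G : Finset ℤ) :
    ∑ n ∈ G, ρ ^ (p - n).natAbs ≤ ∑' n : ℤ, ρ ^ n.natAbs := by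
  have hinj : Function.Injective fun n : ℤ => p - n := fun a b h => by
    have h2 : p - a = p - b := h
    omega
  have h2 : ∑ n ∈ G, ρ ^ (p - n).natAbs = ∑ m ∈ G.image (fun n => p - n), ρ ^ m.natAbs := by
    rw [Finset.sum_image fun a _ b _ h => hinj h]
  rw [h2]
  exact (RWB_summable ρ h0 h1).sum_le_tsum _ fun n _ => pow_nonneg h0.le _

/-- Row RWB. -/
theorem RWB : RWB_stmt := by
  intro X _ α k E hE
  obtain ⟨C, ρ₀, h1, h2, h3, h4⟩ := hE.dec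
  obtain ⟨ρ, hρ⟩ : ∃ ρ, ρ = Real.sqrt ρ₀ := ⟨_, rfl⟩
  have hρ0 : 0 < ρ := by rw [hρ]; exact Real.sqrt_pos.2 h1
  have hρ2 : ρ ^ 2 = ρ₀ := by rw [hρ]; exact Real.sq_sqrt h1.le
  have hρ1 : ρ < 1 := by
    by_contra h
    push Not at h
    have : (1 : ℝ) ≤ ρ ^ 2 := one_le_pow₀ h
    rw [hρ2] at this
    linarith
  have hle : ρ₀ ≤ ρ := by
    rw [← hρ2, sq]
    calc ρ * ρ ≤ ρ * 1 := mul_le_mul_of_nonneg_left hρ1.le hρ0.le
      _ = ρ := mul_one ρ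
  obtain ⟨B, hB⟩ : ∃ B, B = ∑' n : ℤ, ρ ^ n.natAbs := ⟨_, rfl⟩
  have hB0 : 0 ≤ B := by
    rw [hB]
    exact tsum_nonneg fun n => pow_nonneg hρ0.le _
  have hkCB : 0 ≤ (k : ℝ) * (C * B) := by positivity
  refine ⟨ρ, 1 + C + k * (C * B), hρ0, hρ1, by linarith, fun x p q => ?_, fun x p F => ?_⟩
  · calc ‖E x p q‖ ≤ C * ρ₀ ^ (p.1 - q.1).natAbs := h4 x p q
      _ ≤ C * ρ ^ (p.1 - q.1).natAbs :=
          mul_le_mul_of_nonneg_left (pow_le_pow_left₀ h1.le hle _) h3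
      _ ≤ (1 + C + k * (C * B)) * ρ ^ (p.1 - q.1).natAbs :=
          mul_le_mul_of_nonneg_right (by linarith) (pow_nonneg hρ0.le _)
  · have h5 : ∀ r : ℤ × Fin k, ‖E x p r‖ * (ρ⁻¹) ^ (p.1 - r.1).natAbs ≤
        C * ρ ^ (p.1 - r.1).natAbs := by
      intro r
      calc ‖E x p r‖ * (ρ⁻¹) ^ (p.1 - r.1).natAbs ≤
          (C * ρ₀ ^ (p.1 - r.1).natAbs) * (ρ⁻¹) ^ (p.1 - r.1).natAbs :=
            mul_le_mul_of_nonneg_right (h4 x p r) (by positivity)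
        _ = C * (ρ₀ * ρ⁻¹) ^ (p.1 - r.1).natAbs := by rw [mul_pow]; ring
        _ = C * ρ ^ (p.1 - r.1).natAbs := by
            have h6 : ρ₀ * ρ⁻¹ = ρ := by
              rw [← hρ2]
              field_simp
            rw [h6]
    have h6 : F ⊆ (F.image Prod.fst) ×ˢ (Finset.univ : Finset (Fin k)) := by
      intro r hr
      exact Finset.mem_product.2 ⟨Finset.mem_image_of_mem _ hr, Finset.mem_univ _⟩
    calc ∑ r ∈ F, ‖E x p r‖ * (ρ⁻¹) ^ (p.1 - r.1).natAbs ≤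
        ∑ r ∈ F, C * ρ ^ (p.1 - r.1).natAbs := Finset.sum_le_sum fun r _ => h5 r
      _ ≤ ∑ r ∈ (F.image Prod.fst) ×ˢ (Finset.univ : Finset (Fin k)),
          C * ρ ^ (p.1 - r.1).natAbs :=
          Finset.sum_le_sum_of_subset_of_nonneg h6 fun r _ _ => by positivity
      _ = ∑ n ∈ F.image Prod.fst, (k : ℝ) * (C * ρ ^ (p.1 - n).natAbs) := by
          rw [Finset.sum_product]
          refine Finset.sum_congr rfl fun n _ => ?_
          show ∑ _y : Fin k, C * ρ ^ (p.1 - n).natAbs = _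
          rw [Finset.sum_const, Finset.card_univ, Fintype.card_fin, nsmul_eq_mul]
      _ = (k : ℝ) * (C * ∑ n ∈ F.image Prod.fst, ρ ^ (p.1 - n).natAbs) := by
          rw [← Finset.mul_sum, ← Finset.mul_sum]
      _ ≤ (k : ℝ) * (C * B) := by
          rw [hB]
          exact mul_le_mul_of_nonneg_left
            (mul_le_mul_of_nonneg_left (RWB_sum ρ hρ0 hρ1 _ _) h3) (Nat.cast_nonneg _)
      _ ≤ 1 + C + k * (C * B) := by linarith

end Pool.Agent.CZ
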